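import Pool.Agent.H93.BL.Targets

/-!
# Module A4: bounded time before leaving (time reversal of A3)
-/

namespace Pool.Agent.H56.BL.A4

open MeasureTheory Set Pool.Agent.H93.BL

/-- the time reversal of a system of intervals with holes -/
def revS {κ : Type} (S : HoleSys κ) : HoleSys κ where
  a := S.a
  b := S.b
  st := fun z z' => S.st z' z
  ex := S.en
  en := S.ex
  st_mem := fun z z' h => (S.st_mem z' z h).symm
  ex_mem := S.en_mem
  en_mem := S.ex_mem
  fn := fun z z' z'' h1 h2 => S.inj z' z'' z h1 h2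
  inj := fun z z' z'' h1 h2 => S.fn z'' z z' h1 h2
  loc := by
    intro k t k' t' h
    obtain ⟨ε, hε, H⟩ := S.loc k' t' k t h
    refine ⟨ε, hε, fun δ hδ => ?_⟩
    have h1 := H (-δ) (by rwa [abs_neg])
    rw [sub_neg_eq_add] at h1
    rw [sub_eq_add_neg]
    exact h1
  ex_loc := S.en_loc
  en_loc := S.ex_loc
  ex_st := fun z z' h => S.en_st z' z h
  en_st := fun z z' h => S.ex_st z' z h
  sf_fin := S.sb_fin
  sb_fin := S.sf_fin

lemma chain_rev (hA1a : T_A1a) {κ : Type} (S : HoleSys κ) (n : ℕ) :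
    ∀ z z' : κ × ℝ, (revS S).chain n z z' ↔ S.chain n z' z := by
  induction n with
  | zero =>
    intro z z'
    exact eq_comm
  | succ n ih =>
    intro z z'
    rw [hA1a κ S n 1 z' z]
    constructor
    · rintro ⟨y, h1, h2⟩
      exact ⟨y, (ih y z').1 h2, z, h1, rfl⟩
    · rintro ⟨y, h1, w, h2, h3⟩
      have h4 : w = z := h3
      subst h4
      exact ⟨y, h2, (ih y z').2 h1⟩

theorem a4 : T_A1a → T_A1b → T_A1c → T_A1d → T_A3 → T_A4 := by
  intro hA1a _ _ _ hA3 κ _ S
  obtain ⟨N, hN⟩ := hA3 κ (revS S)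
  exact ⟨N, fun n z z' h1 h2 => hN n z' z h1 ((chain_rev hA1a S n z' z).2 h2)⟩

end Pool.Agent.H56.BL.A4
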