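import Pool.Agent.H93.BL.Targets

/-!
# Module G5B: the hit side is locally constant, start points on a side
-/

namespace Pool.Agent.H56.BL.G5B

open MeasureTheory Set Pool.Agent.H93.BL

variable {ι : Type} (P : Polygon ι)

/-- moving the starting point forward along the ray -/
lemma hit_forward {y v : ℂ} {j : ι} {t r1 : ℝ} (h : P.Hit y v j t) (h0 : 0 < r1) (h1 : r1 < t) :
    P.Hit (y + (r1 : ℂ) * v) v j (t - r1) := by
  obtain ⟨_, h3, h4, h5⟩ := h
  refine ⟨by linarith, fun r hr => ?_, ?_, h5⟩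
  · have e : y + (r1 : ℂ) * v + (r : ℂ) * v = y + ((r1 + r : ℝ) : ℂ) * v := by push_cast; ring
    rw [e]
    exact h3 _ ⟨by linarith [hr.1], by linarith [hr.2]⟩
  · have e : y + (r1 : ℂ) * v + ((t - r1 : ℝ) : ℂ) * v = y + (t : ℂ) * v := by push_cast; ring
    rw [e]
    exact h4

/-- moving the starting point backward along the ray -/
lemma hit_backward {y v : ℂ} {j : ι} {t r1 : ℝ} (h0 : 0 < r1)
    (hΩ : ∀ r ∈ Ioc 0 r1, y + (r : ℂ) * v ∈ P.Ω)
    (h : P.Hit (y + (r1 : ℂ) * v) v j t) : P.Hit y v j (r1 + t) := by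
  obtain ⟨h2, h3, h4, h5⟩ := h
  refine ⟨by linarith, fun r hr => ?_, ?_, h5⟩
  · rcases le_or_gt r r1 with hle | hgt
    · exact hΩ r ⟨hr.1, hle⟩
    · have e : y + (r : ℂ) * v = y + (r1 : ℂ) * v + ((r - r1 : ℝ) : ℂ) * v := by push_cast; ring
      rw [e]
      exact h3 _ ⟨by linarith, by linarith [hr.2]⟩
  · have e : y + ((r1 + t : ℝ) : ℂ) * v = y + (r1 : ℂ) * v + (t : ℂ) * v := by push_cast; ring
    rw [e]
    exact h4

theorem g5b : T_G1 → T_G5a → T_G5b := by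
  intro hG1 hG5a ι _ P i y v j t hy hv hH
  obtain ⟨ρ, hρ, hΩ, -, -, -⟩ := hG1 ι P i y hy
  have hn0 : 0 ≤ ‖v‖ := norm_nonneg v
  obtain ⟨r1, hr0, hrt, hrρ⟩ : ∃ r1 : ℝ, 0 < r1 ∧ r1 < t ∧ r1 * (‖v‖ + 1) < ρ / 2 := by
    have ht : 0 < t := hH.1
    refine ⟨min (t / 2) (ρ / (4 * (‖v‖ + 1))), lt_min (by linarith) (by positivity),
      lt_of_le_of_lt (min_le_left _ _) (by linarith), ?_⟩
    calc min (t / 2) (ρ / (4 * (‖v‖ + 1))) * (‖v‖ + 1)
        ≤ ρ / (4 * (‖v‖ + 1)) * (‖v‖ + 1) :=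
          mul_le_mul_of_nonneg_right (min_le_right _ _) (by positivity)
      _ = ρ / 4 := by field_simp
      _ < ρ / 2 := by linarith
  have hy1 : y + (r1 : ℂ) * v ∈ P.Ω := hH.2.1 r1 ⟨hr0, hrt⟩
  obtain ⟨ε1, hε1, hε⟩ := hG5a ι P (y + (r1 : ℂ) * v) v j (t - r1) hy1
    (hit_forward P hH hr0 hrt)
  refine ⟨min (ρ / 2) (min 1 (min (ip v (P.n i)) (ε1 / (1 + r1)))),
    lt_min (by linarith) (lt_min one_pos (lt_min hv (by positivity))), ?_⟩
  intro y' hy' v' hdy hdv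
  have hdy1 : dist y' y < ρ / 2 := lt_of_lt_of_le hdy (min_le_left _ _)
  have hdy2 : dist y' y < ε1 / (1 + r1) := lt_of_lt_of_le hdy
    ((min_le_right _ _).trans ((min_le_right _ _).trans (min_le_right _ _)))
  have hdv1 : dist v' v < 1 := lt_of_lt_of_le hdv ((min_le_right _ _).trans (min_le_left _ _))
  have hdv2 : dist v' v < ip v (P.n i) := lt_of_lt_of_le hdv
    ((min_le_right _ _).trans ((min_le_right _ _).trans (min_le_left _ _)))
  have hdv3 : dist v' v < ε1 / (1 + r1) := lt_of_lt_of_le hdv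
    ((min_le_right _ _).trans ((min_le_right _ _).trans (min_le_right _ _)))
  have hvn : ‖v'‖ < ‖v‖ + 1 := by
    have h1 : ‖v'‖ ≤ ‖v‖ + ‖v' - v‖ := by
      calc ‖v'‖ = ‖v + (v' - v)‖ := by congr 1; ring
        _ ≤ ‖v‖ + ‖v' - v‖ := norm_add_le _ _
    rw [dist_eq_norm] at hdv1
    linarith
  have hip : 0 < ip v' (P.n i) := by
    have h1 : ip v' (P.n i) = ip v (P.n i) + ip (v' - v) (P.n i) := by
      rw [ip_sub_left]; ring
    have h2 := abs_ip_le (v' - v) (P.n i)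
    rw [P.norm_n i, mul_one, ← dist_eq_norm] at h2
    have h3 := (abs_le.1 h2).1
    linarith
  have hline : ip (y' - y) (P.n i) = 0 := by
    obtain ⟨s', -, -, rfl⟩ := (P.mem_openSegment_iff i y').1 hy'
    obtain ⟨s, -, -, rfl⟩ := (P.mem_openSegment_iff i y).1 hy
    exact P.ip_line i s' s
  have hin : ∀ r ∈ Ioc 0 r1, y' + (r : ℂ) * v' ∈ P.Ω := by
    intro r hr
    apply hΩ
    · have h1 : dist (y' + (r : ℂ) * v') y ≤ dist y' y + r * ‖v'‖ := by
        rw [dist_eq_norm, dist_eq_norm,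
          show y' + (r : ℂ) * v' - y = (y' - y) + (r : ℂ) * v' by ring]
        refine (norm_add_le _ _).trans ?_
        rw [norm_mul, Complex.norm_real, Real.norm_of_nonneg hr.1.le]
      have h2 : r * ‖v'‖ ≤ r1 * (‖v‖ + 1) :=
        mul_le_mul hr.2 hvn.le (norm_nonneg _) hr0.le
      linarith
    · rw [show y' + (r : ℂ) * v' - y = (y' - y) + (r : ℂ) * v' by ring, ip_add_left, hline,
        ip_smul_left, zero_add]
      exact mul_pos hr.1 hip
  have hd1 : dist (y' + (r1 : ℂ) * v') (y + (r1 : ℂ) * v) < ε1 := by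
    have h1 : dist (y' + (r1 : ℂ) * v') (y + (r1 : ℂ) * v) ≤ dist y' y + r1 * dist v' v := by
      rw [dist_eq_norm, dist_eq_norm, dist_eq_norm,
        show y' + (r1 : ℂ) * v' - (y + (r1 : ℂ) * v) = (y' - y) + (r1 : ℂ) * (v' - v) by ring]
      refine (norm_add_le _ _).trans ?_
      rw [norm_mul, Complex.norm_real, Real.norm_of_nonneg hr0.le]
    have h2 : r1 * dist v' v ≤ r1 * (ε1 / (1 + r1)) :=
      mul_le_mul_of_nonneg_left hdv3.le hr0.le
    have h3 : ε1 / (1 + r1) + r1 * (ε1 / (1 + r1)) = ε1 := by field_simp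
    linarith
  have hd2 : dist v' v < ε1 := by
    refine lt_of_lt_of_le hdv3 ?_
    rw [div_le_iff₀ (by linarith)]
    nlinarith
  obtain ⟨t'', ht''⟩ := hε (y' + (r1 : ℂ) * v') v' hd1 hd2
  exact ⟨r1 + t'', hit_backward P hr0 hin ht''⟩

end Pool.Agent.H56.BL.G5B
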